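import Mathlib

set_option autoImplicit false
open Finset Module Matrix

namespace Pool.Agent.H.MP_cd3971_co.A

variable {F : Type} [Field F] [Fintype F] {n : ℕ} (A : Submodule F (Matrix (Fin n) (Fin n) F))

def perp (S : Set (Fin n → F)) : Submodule F (Fin n → F) where
  carrier := {v | ∀ u ∈ S, ∀ M ∈ A, u ⬝ᵥ M *ᵥ v = 0}
  add_mem' := fun ha hb u hu M hM => by
    rw [mulVec_add, dotProduct_add, ha u hu M hM, hb u hu M hM, add_zero]
  zero_mem' := fun u _ M _ => by simp
  smul_mem' := fun c v hv u hu M hM => by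
    rw [mulVec_smul, dotProduct_smul, hv u hu M hM, smul_zero]

noncomputable def sm {d : ℕ} (u : Fin d → Fin n → F) : ℕ :=
  ∑ i, finrank F (perp A (u '' {j | i < j}))

def Ch {d : ℕ} (u : Fin d → Fin n → F) : Prop := ∀ i, u i ∈ perp A (u '' {j | i < j})

omit [Field F] [Fintype F] in
theorem im0 {d : ℕ} (v : Fin n → F) (w : Fin d → Fin n → F) :
    (Fin.cons v w : Fin (d + 1) → Fin n → F) '' {j | 0 < j} = Set.range w := by
  ext x
  constructor
  · rintro ⟨j, hj, rfl⟩
    obtain ⟨k, rfl⟩ := Fin.exists_succ_eq.2 (ne_of_gt hj)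
    exact ⟨k, by simp⟩
  · rintro ⟨k, rfl⟩
    exact ⟨k.succ, Fin.succ_pos k, by simp⟩

omit [Field F] [Fintype F] in
theorem ims {d : ℕ} (v : Fin n → F) (w : Fin d → Fin n → F) (i : Fin d) :
    (Fin.cons v w : Fin (d + 1) → Fin n → F) '' {j | i.succ < j} = w '' {j | i < j} := by
  ext x
  constructor
  · rintro ⟨j, hj, rfl⟩
    obtain ⟨k, rfl⟩ := Fin.exists_succ_eq.2 (ne_of_gt ((Fin.succ_pos i).trans hj))
    exact ⟨k, Fin.succ_lt_succ_iff.1 hj, by simp⟩
  · rintro ⟨k, hk, rfl⟩
    exact ⟨k.succ, Fin.succ_lt_succ_iff.2 hk, by simp⟩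

open Classical in
theorem weight (d : ℕ) : ∑ u : Fin d → Fin n → F,
    (if Ch A u then ((Fintype.card F : ℝ) ^ sm A u)⁻¹ else 0) ≤ 1 := by
  induction d with
  | zero => simp [Ch, sm]
  | succ d ih =>
    have hq : (0 : ℝ) < Fintype.card F := by exact_mod_cast Fintype.card_pos
    rw [← (Fin.consEquiv fun _ => Fin n → F).sum_comp, Fintype.sum_prod_type, sum_comm]
    refine le_trans (sum_le_sum fun w _ => ?_) ih
    have e1 : ∀ v, Ch A (Fin.consEquiv (fun _ => Fin n → F) (v, w)) ↔
        v ∈ perp A (Set.range w) ∧ Ch A w := by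
      intro v
      show Ch A (Fin.cons v w) ↔ _
      simp only [Ch, Fin.forall_fin_succ, im0, ims, Fin.cons_zero, Fin.cons_succ]
    have e2 : ∀ v, sm A (Fin.consEquiv (fun _ => Fin n → F) (v, w)) =
        finrank F (perp A (Set.range w)) + sm A w := by
      intro v
      show sm A (Fin.cons v w) = _
      rw [sm, Fin.sum_univ_succ, im0, sm]
      congr 1
      exact sum_congr rfl fun i _ => by rw [ims]
    simp only [e1, e2]
    by_cases h : Ch A w
    · simp only [h, and_true, if_true]
      rw [← sum_filter, sum_const, nsmul_eq_mul]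
      have : ((univ.filter fun v => v ∈ perp A (Set.range w)).card : ℝ) =
          (Fintype.card F : ℝ) ^ finrank F (perp A (Set.range w)) := by
        rw [← Fintype.card_subtype, Module.card_eq_pow_finrank (K := F)]
        push_cast
        rfl
      rw [this, pow_add]
      apply le_of_eq
      field_simp
    · simp [h]

open Classical in
theorem count (d T : ℕ) :
    ((univ.filter fun u : Fin d → Fin n → F => Ch A u ∧ 2 * sm A u ≤ T).card : ℝ) ≤
      (Fintype.card F : ℝ) ^ ((T : ℝ) / 2) := by
  have hq : (1 : ℝ) ≤ Fintype.card F := by exact_mod_cast Fintype.card_pos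
  have hp : (0 : ℝ) < (Fintype.card F : ℝ) ^ ((T : ℝ) / 2) := by positivity
  have h := weight A d
  have : ∑ u ∈ univ.filter fun u : Fin d → Fin n → F => Ch A u ∧ 2 * sm A u ≤ T,
      ((Fintype.card F : ℝ) ^ ((T : ℝ) / 2))⁻¹ ≤ 1 := by
    refine le_trans ?_ h
    rw [sum_filter]
    refine sum_le_sum fun u _ => ?_
    by_cases h1 : Ch A u
    · by_cases h2 : 2 * sm A u ≤ T
      · simp only [h1, h2, and_self, if_true]
        refine inv_anti₀ (by positivity) ?_
        rw [← Real.rpow_natCast]
        refine Real.rpow_le_rpow_of_exponent_le hq ?_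
        have : (2 : ℝ) * sm A u ≤ T := by exact_mod_cast h2
        linarith
      · simp only [h1, h2, and_false, if_false, if_true]
        positivity
    · simp [h1]
  rw [sum_const, nsmul_eq_mul, ← div_eq_mul_inv, div_le_one hp] at this
  exact this

omit [Fintype F] in
theorem two (S T : Set (Fin n → F)) : finrank F (perp A S) + finrank F (perp A T) ≤
    n + finrank F (perp A (S ∪ T)) := by
  have h1 := Submodule.finrank_sup_add_finrank_inf_eq (perp A S) (perp A T)
  have h2 : finrank F (perp A S ⊔ perp A T : Submodule F _) ≤ n := by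
    simpa using Submodule.finrank_le (perp A S ⊔ perp A T)
  have h3 : perp A S ⊓ perp A T = perp A (S ∪ T) := by
    ext v
    constructor
    · rintro ⟨a, b⟩ u (hu | hu)
      exacts [a u hu, b u hu]
    · intro h
      exact ⟨fun u hu => h u (Or.inl hu), fun u hu => h u (Or.inr hu)⟩
  rw [h3] at h1
  omega

omit [Fintype F] in
theorem rev {d : ℕ} (u : Fin d → Fin n → F) (h : finrank F (perp A (Set.range u)) = d) :
    sm A u + sm A (u ∘ Fin.rev) ≤ d * (n + d) + n := by
  let g : ℕ → ℕ := fun k => finrank F (perp A (u '' {j | j.val < k}))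
  have e : sm A (u ∘ Fin.rev) = ∑ k ∈ range d, g k := by
    rw [sm, ← Equiv.sum_comp Fin.revPerm, ← Fin.sum_univ_eq_sum_range]
    refine sum_congr rfl fun i _ => ?_
    have : (u ∘ Fin.rev) '' {j | Fin.revPerm i < j} = u '' {j | j.val < i.val} := by
      ext x
      constructor
      · rintro ⟨j, hj, rfl⟩
        exact ⟨j.rev, Fin.rev_lt_iff.2 (by simpa using hj), rfl⟩
      · rintro ⟨j, hj, rfl⟩
        exact ⟨j.rev, Fin.rev_lt_rev.2 hj, by simp⟩
    rw [this]
  have e2 : ∑ k ∈ range d, g k ≤ ∑ k ∈ range d, g (k + 1) + n := by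
    have := sum_range_succ' g d
    rw [sum_range_succ] at this
    have h0 : g 0 ≤ n := by simpa using Submodule.finrank_le (perp A (u '' {j | j.val < 0}))
    omega
  have e3 : sm A u + ∑ k ∈ range d, g (k + 1) ≤ d * (n + d) := by
    rw [sm, ← Fin.sum_univ_eq_sum_range (fun k => g (k + 1)), ← sum_add_distrib]
    refine (sum_le_card_nsmul _ _ (n + d) fun i _ => ?_).trans (by simp)
    have := two A (u '' {j | i < j}) (u '' {j | j.val < i.val + 1})
    rwa [← Set.image_union, show {j | i < j} ∪ {j : Fin d | j.val < i.val + 1} = Set.univ from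
      Set.eq_univ_of_forall fun j => by
        simp only [Set.mem_union, Set.mem_ofPred_eq, Fin.lt_def]; omega, Set.image_univ, h] at this
  omega

end Pool.Agent.H.MP_cd3971_co.A
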